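import Mathlib

/-!
# MP_7d0087_nt: statement 2 of Q1 fails at `p = 7`
-/

namespace Pool.Agent.Results.MP_7d0087_nt.SecondCaseFails

open Finset

/-- the binomial coefficient `a (a-1) ... (a-k+1) / k!` -/
def binom (a : ℚ) (k : ℕ) : ℚ := (∏ i ∈ range k, (a - i)) / (k.factorial : ℚ)

/-- the sum `S_p` -/
def S (p : ℕ) : ℚ := ∑ k ∈ range p, binom (-1 / 2) k * binom (-1 / 3) k / (-4) ^ k

/-- `a` and `b` are congruent modulo `p^m`: `a - b` is `p^m` times a rational number whose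
denominator is prime to `p` -/
def Cong (p m : ℕ) (a b : ℚ) : Prop := ∃ r : ℚ, ¬ p ∣ r.den ∧ a - b = (p : ℚ) ^ m * r

/-- Statement 2 of Q1 fails at the prime `p = 7 = (-2)^2 + 3 * 1^2`, even modulo `p`. -/
theorem result : ∃ p : ℕ, p.Prime ∧ 5 < p ∧ ∃ A B : ℤ,
    p % 3 = 1 ∧ (p : ℤ) = A ^ 2 + 3 * B ^ 2 ∧ A % 3 = 1 ∧ ¬ (5 : ℤ) ∣ A * B ∧
    (A ≡ -1 * B [ZMOD 5] ∨ A ≡ -2 * B [ZMOD 5]) ∧
    ¬ Cong p 2 (S p) ((jacobiSym p 5 : ℚ) * ((A : ℚ) + 3 * B - p / ((A : ℚ) + 3 * B))) ∧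
    ¬ Cong p 1 (S p) ((jacobiSym p 5 : ℚ) * ((A : ℚ) + 3 * B - p / ((A : ℚ) + 3 * B))) := by
  have j1 : jacobiSym 7 5 = -1 := by norm_num
  have hS : S 7 = 1103995409 / 1146617856 := by
    norm_num [S, binom, sum_range_succ, prod_range_succ, Nat.factorial]
  have key : ¬ Cong 7 1 (S 7) ((jacobiSym ((7 : ℕ) : ℤ) 5 : ℚ) *
      (((-2 : ℤ) : ℚ) + 3 * ((1 : ℤ) : ℚ) - ((7 : ℕ) : ℚ) / (((-2 : ℤ) : ℚ) + 3 * ((1 : ℤ) : ℚ)))) := by
    rintro ⟨r, hr, h⟩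
    have hc : (((7 : ℕ) : ℤ)) = 7 := rfl
    rw [hc, j1, hS] at h
    have h2 : r = -5775711727 / (1146617856 * 7) := by
      norm_num at h
      linarith
    apply hr
    rw [h2]
    decide +kernel
  refine ⟨7, by norm_num, by norm_num, -2, 1, by norm_num, by norm_num, by norm_num, by norm_num,
    Or.inr (by decide), ?_, key⟩
  rintro ⟨r, hr, h⟩
  apply key
  refine ⟨7 * r, ?_, by rw [h]; push_cast; ring⟩
  intro hd
  apply hr
  refine hd.trans ?_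
  have := Rat.mul_den_dvd 7 r
  simpa using this

end Pool.Agent.Results.MP_7d0087_nt.SecondCaseFails
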